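import Pool.Agent.N906.NT.All

/-!
# Project RN (helper906): tuples with sum zero ordered by their radical (MP_a95293_nt, MP_7ecdd4_nt)

Targets. For `1/n < M < M' < 3/(3n-1)` the number of the tuples with sum zero ((a) gcd 1, no vanishing subsum, `r = n - 2`;
(b) pairwise coprime, `r = 1`) with `rad (x_1 ⋯ x_n) ≤ X` and `rad ^ M < max |x_i| ≤ rad ^ M'` is
`X ^ (1 - M) exp ((c + o(1)) ((n M - 1) log X / log log X) ^ (r/(r+1)))`, `c = cst r (n.choose r)`.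

The statements of project NT (`Pool/Agent/N906/NT/Stm.lean`) are all proved (`Pool/Agent/N906/NT/All.lean`: `gupn_all`, `winn_all`,
`up_all : S_UP`, `lo_all : S_LO`; `Pool.Agent.N543.NT.seq : S_SEQ`, `Pool.Agent.N130.NT.prm : S_PRM`, `Pool.Agent.N475.NT.red : S_RED`).
There the parameter `κ` of the upper bound is fixed; here the bound has to be uniform in `κ`.
-/

set_option autoImplicit false

namespace Pool.Agent.N906.RN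

open Finset Filter Topology Pool.Agent.N906.NT

/-- UPAU. `S_UPA` uniformly for `κ₀ ≤ κ ≤ κ₁`. The proof is that of `Pool/Agent/N755/NT_UPA.lean` (copy the file to your own folder);
`X₀` depends only on `κ₀, κ₁`, since the choice of `u` (`num` there) depends only on `Z = κ log X ≥ κ₀ log X`: prove `num` and `big` in the
form `∀ᶠ x, ∀ κ ∈ [κ₀, κ₁], ...`. -/
def S_UPAU : Prop := ∀ (n r : ℕ) (κ₀ κ₁ η ε : ℝ), 1 ≤ r → r + 2 ≤ n → 0 < κ₀ → κ₀ ≤ κ₁ → 0 < η → κ₁ + η ≤ 1 / 2 →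
  0 < ε →
  ∃ X₀ : ℝ, 3 < X₀ ∧ ∀ (κ X T : ℝ) (B : Fin n → ℝ) (l : Fin n) (F : Finset (Fin n → ℤ)), κ₀ ≤ κ → κ ≤ κ₁ →
    X₀ ≤ X → 1 ≤ T → T ≤ X ^ κ → (∀ k, 1 ≤ B k ∧ B k ≤ X) → B l = X →
    ∏ k, B k = 2 ^ n * T * X ^ ((n : ℝ) - κ) →
    (∀ x ∈ F, ∑ i, x i = 0 ∧ (∀ k, x k ≠ 0 ∧ |(x k : ℝ)| ≤ B k) ∧
      ∃ D : Fin n → ℕ, (∀ i, (D i : ℤ) ∣ x i) ∧ Tp (Dl n r) D ∧ Sq D ∧ T ≤ gn D ∧
        gn D ≤ T * X ^ η) →
    (F.card : ℝ) ≤ Real.exp (((n : ℝ) - 1 - κ) * Real.log X +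
      (1 + ε) * cst r (n.choose r) *
        (κ * Real.log X / Real.log (Real.log X)) ^ ((r : ℝ) / (r + 1)))

/-- UPBU. `S_UPB` uniformly for `κ₀ ≤ κ ≤ κ₁`. The proof is that of `Pool/Agent/N434/NT_UPB.lean` (copy the file to your own folder); the
exponents in it are compared with fixed numbers, use `κ₁ < 1/3` instead of `κ < 1/3`. -/
def S_UPBU : Prop := ∀ (n r : ℕ) (κ₀ κ₁ η : ℝ), 1 ≤ r → r + 2 ≤ n → 0 < κ₀ → κ₀ ≤ κ₁ → κ₁ < 1 / 3 → 0 < η →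
  ∃ X₀ : ℝ, 3 < X₀ ∧ ∀ (κ X T : ℝ) (B : Fin n → ℝ) (l : Fin n) (F : Finset (Fin n → ℤ)), κ₀ ≤ κ → κ ≤ κ₁ →
    X₀ ≤ X → 1 ≤ T → T ≤ X ^ κ → (∀ k, 1 ≤ B k ∧ B k ≤ X) → B l = X →
    ∏ k, B k = 2 ^ n * T * X ^ ((n : ℝ) - κ) →
    (∀ x ∈ F, ∑ i, x i = 0 ∧ NV x ∧ (∀ k, B k / 2 < |(x k : ℝ)| ∧ |(x k : ℝ)| ≤ B k) ∧
      ∃ D : Fin n → ℕ, (∀ i, (D i : ℤ) ∣ x i) ∧ Tp (Dl n r) D ∧ Sq D ∧ T * X ^ η < gn D ∧
        ∀ p : ℕ, p.Prime → p ∣ pr D → gn D / p < T) →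
    (F.card : ℝ) ≤ X ^ ((n : ℝ) - 1 - κ)

/-- UPR, from RED, UPAU, UPBU. `S_UP` uniformly for `κ₀ ≤ κ ≤ κ₁`. The proof is that of `Pool/Agent/N130/NT_UP.lean`. -/
def S_UPR : Prop := ∀ (n r : ℕ) (κ₀ κ₁ ε : ℝ), 1 ≤ r → r + 2 ≤ n → 0 < κ₀ → κ₀ ≤ κ₁ → κ₁ < 1 / 3 → 0 < ε →
  ∃ X₀ : ℝ, 3 < X₀ ∧ ∀ (κ X : ℝ) (F : Finset (Fin n → ℤ)), κ₀ ≤ κ → κ ≤ κ₁ → X₀ ≤ X →
    (∀ x ∈ F, ∑ i, x i = 0 ∧ (∀ i, x i ≠ 0) ∧ Tp (Dl n r) (ab x) ∧ (∀ i, |(x i : ℝ)| ≤ X) ∧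
      (∃ i, X / 2 < |(x i : ℝ)|) ∧ (rr (ab x) : ℝ) ≤ X ^ ((n : ℝ) - κ)) →
    (F.card : ℝ) ≤ Real.exp (((n : ℝ) - 1 - κ) * Real.log X +
      (1 + ε) * cst r (n.choose r) *
        (κ * Real.log X / Real.log (Real.log X)) ^ ((r : ℝ) / (r + 1)))

/-- the tuples with `rad ≤ X`, `rad ^ M < max |x_i| ≤ rad ^ M'` -/
def Ra (n r : ℕ) (M M' X : ℝ) : Set (Fin n → ℤ) :=
  {x | ∑ i, x i = 0 ∧ (∀ i, x i ≠ 0) ∧ Tp (Dl n r) (ab x) ∧ (rr (ab x) : ℝ) ≤ X ∧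
    (∃ i, (rr (ab x) : ℝ) ^ M < |(x i : ℝ)|) ∧ ∀ i, |(x i : ℝ)| ≤ (rr (ab x) : ℝ) ^ M'}

/-- those without vanishing subsum -/
def Rn (n r : ℕ) (M M' X : ℝ) : Set (Fin n → ℤ) := {x | x ∈ Ra n r M M' X ∧ NV x}

/-- FINRN, from UPR and `up_all : S_UP`, `lo_all : S_LO`. `κ = n - 1/M`, `κ' = n - 1/M' < 1/3`, `L = log X`, `ρ = r/(r+1)`,
`c = cst r (n.choose r)`. Finiteness: `|x_i| ≤ X ^ M'`.
Upper bound (for `Ra`). Cut according to `H/2 < max |x_i| ≤ H`, `H = X^M 2^j` (`j` integer, positive or negative; `O(L)` of them).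
(1) `H ≤ X^M`: `rr < H^(1/M) = H^(n-κ)`, so `S_UP` (for bounded `H` a constant) gives at most
`exp ((n-1-κ) log H + (1+ε) c (κ log H / log log H)^ρ)`, which is increasing in `H` (for large `H`), at `H = X^M` it is
`exp ((1-M) L + (1+ε) c ((nM-1) L / log (M L))^ρ)`.
(2) `X^M < H ≤ 2 X^M'`: `rr ≤ X = H^(n-κ₂)` with `κ₂ = n - L / log H` in `[κ, κ₁]`, `κ₁` a number between `κ'` and `1/3`. UPR gives at most
`exp (L - m + (1+ε) c ((n m - L) / log m)^ρ)`, `m = log H ≥ M L`. With `m = M L + y`: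
`((n m - L)/log m)^ρ ≤ ((nM-1) L / log (M L))^ρ + (n y / log (M L))^ρ`, `(n y / log(M L))^ρ ≤ a (1 + y)`, with `a` as small as we like for
large `X`, so the exponent is at most `(1-M) L + (1+ε) c ((nM-1) L/log (M L))^ρ + 1`.
Lower bound (for `Rn`). `S_LO` with `κ`, `A = 2` and `X^M` in the place of `X`: the tuples satisfy `2 rr ≤ |x_i|^(1/M)` for some `i`, so
`rr ^ M < |x_i|` and `rr ≤ X`. Remove those with `max |x_i| > rr ^ M'`: they satisfy `rr ≤ max^(n-κ')`, `max ≤ X^M`; by `S_UP` (with `κ'`, dyadic cuts)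
at most `exp ((n-1-κ') M L + o(L))`, negligible. Limits: `log (M L) / log L → 1`; compare `Pool/Agent/N906/NT/Lim.lean`. -/
def S_FINRN : Prop := ∀ (n r : ℕ) (M M' : ℝ), 1 ≤ r → r + 2 ≤ n → 1 / (n : ℝ) < M → M < M' → M' < 3 / (3 * (n : ℝ) - 1) →
  (∀ X : ℝ, (Ra n r M M' X).Finite) ∧
  Tendsto (fun X : ℝ => (Real.log ((Ra n r M M' X).ncard : ℝ) - (1 - M) * Real.log X) /
      (Real.log X / Real.log (Real.log X)) ^ ((r : ℝ) / (r + 1))) atTop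
    (𝓝 (cst r (n.choose r) * ((n : ℝ) * M - 1) ^ ((r : ℝ) / (r + 1)))) ∧
  Tendsto (fun X : ℝ => (Real.log ((Rn n r M M' X).ncard : ℝ) - (1 - M) * Real.log X) /
      (Real.log X / Real.log (Real.log X)) ^ ((r : ℝ) / (r + 1))) atTop
    (𝓝 (cst r (n.choose r) * ((n : ℝ) * M - 1) ^ ((r : ℝ) / (r + 1))))

/-- pairwise coprime tuples with `rad ≤ X`, `max |x_i| > rad ^ M` of height at most `X ^ A` -/
def Rc (n : ℕ) (M A X : ℝ) : Set (Fin n → ℤ) :=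
  {x | ∑ i, x i = 0 ∧ (∀ i, x i ≠ 0) ∧ (∀ i j, i ≠ j → IsCoprime (x i) (x j)) ∧ (rr (ab x) : ℝ) ≤ X ∧
    (∃ i, (rr (ab x) : ℝ) ^ M < |(x i : ℝ)|) ∧ ∀ i, |(x i : ℝ)| ≤ X ^ A}

/-- FINRC, from FINRN with `r = 1` and the known power saving `Pool.Agent.Y594.NT.thr_upper` (`Pool/Agent/Y594/NT/ThrFin.lean`; its `rad` is
`Pool.Agent.H785R2.ABC.rad`; for pairwise coprime tuples `∏ rad (x_i) = rad (∏ x_i)`, and `Tp (Dl n 1) (ab x)`). `A ≥ 1`. Let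
`ν` be as there, `M'` with `1/n < M' < 3/(3n-1)` and `1 - M' > (n-1)/n - ν/2`, `M₀` a number between `1/n` and `M'`. For `M < M₀` the tuples of
`Rc` which are not in `Ra n 1 M M' X` satisfy `|x_i| > rad ^ M'` for some `i`; by `thr_upper` with `M'` and a small `δ` (`1 - M' + δ < 1 - M₀`) they are
at most `C (X ^ (1 - M' + δ) + X ^ ((n-1)/n - ν))`, negligible. And `Ra n 1 M M' X ⊆ Rc` since `M' ≤ 1 ≤ A`. -/
def S_FINRC : Prop := ∀ (n : ℕ) (A : ℝ), 3 ≤ n → 1 ≤ A → ∃ M₀ : ℝ, 1 / (n : ℝ) < M₀ ∧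
  ∀ M : ℝ, 1 / (n : ℝ) < M → M < M₀ →
  (∀ X : ℝ, (Rc n M A X).Finite) ∧
  Tendsto (fun X : ℝ => (Real.log ((Rc n M A X).ncard : ℝ) - (1 - M) * Real.log X) /
      √(Real.log X / Real.log (Real.log X))) atTop (𝓝 √(8 * n * ((n : ℝ) * M - 1)))

end Pool.Agent.N906.RN
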