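import Pool.Agent.N906.RN.Stm
import Pool.Agent.N286.RN_UPAU
import Pool.Agent.N514.RN_UPBU
import Pool.Agent.N564.RN_UPR
import Pool.Agent.N494.RN_FINRN

/-!
# Project RN: all statements
-/

set_option autoImplicit false

namespace Pool.Agent.N906.RN

theorem upr_all : S_UPR := Pool.Agent.N564.RN.upr Pool.Agent.N286.RN.upau Pool.Agent.N514.RN.upbu

theorem finrn_all : S_FINRN := Pool.Agent.N494.RN.finrn upr_all

end Pool.Agent.N906.RN
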